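import Mathlib
import Pool.Agent.H703R2.FarPart

/-!
A holomorphic self-map of `P^2` and a compact totally invariant set `K` which does not meet the
postcritical set but on which the map is not hyperbolic.
-/

open scoped LinearAlgebra.Projectivization Topology ComplexOrder

namespace Pool.Agent.Results.MP_eb1abe_an.NotHyperbolic

/-- The complex projective plane. -/
abbrev P2 : Type := ℙ ℂ (Fin 3 → ℂ)

/-- The topology of `P^2`: the quotient topology of `C^3 ∖ {0}`. -/
noncomputable instance : TopologicalSpace P2 :=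
  TopologicalSpace.coinduced
    (fun v : {v : Fin 3 → ℂ // v ≠ 0} => Projectivization.mk ℂ v.1 v.2) inferInstance

/-- A holomorphic self-map of `P^2` of degree `d`, given by three homogeneous polynomials of
degree `d` in three variables whose only common zero is the origin of `C^3`. -/
structure HolMap (d : ℕ) where
  F : Fin 3 → MvPolynomial (Fin 3) ℂ
  homogeneous : ∀ i, (F i).IsHomogeneous d
  onlyZero : ∀ z : Fin 3 → ℂ, (∀ i, MvPolynomial.eval z (F i) = 0) → z = 0

namespace HolMap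

variable {d : ℕ}

/-- The lift `F : z ↦ (F_0(z), F_1(z), F_2(z))` to `C^3`. -/
noncomputable def lift (f : HolMap d) (z : Fin 3 → ℂ) : Fin 3 → ℂ :=
  fun i => MvPolynomial.eval z (f.F i)

theorem lift_ne_zero (f : HolMap d) {z : Fin 3 → ℂ} (hz : z ≠ 0) : f.lift z ≠ 0 :=
  fun h => hz (f.onlyZero z fun i => congrFun h i)

/-- The induced map `[z] ↦ [F_0(z) : F_1(z) : F_2(z)]` of the projective plane. -/
noncomputable def map (f : HolMap d) (p : P2) : P2 :=
  Projectivization.mk ℂ (f.lift p.rep) (f.lift_ne_zero p.rep_nonzero)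

/-- The critical set `C`. The tangent space of `P^2` at `[z]` is `C^3 / C z` (a tangent vector is
a class of pairs `(z, ξ)` with `(z, ξ) ~ (t z, t ξ + s z)`), and the differential of `f` is
`(z, ξ) ↦ (F(z), DF(z) ξ)`. The point `[z]` is critical if this differential has a non-zero
vector in its kernel, i.e. if the Jacobian determinant of `f` in local coordinates vanishes. -/
def critSet (f : HolMap d) : Set P2 :=
  {p | ∃ ξ : Fin 3 → ℂ, ξ ∉ p.submodule ∧ fderiv ℂ f.lift p.rep ξ ∈ (f.map p).submodule}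

/-- The postcritical set: the closure of the union of the sets `f^n(C)`, `n ≥ 1`. -/
def postcrit (f : HolMap d) : Set P2 := closure (⋃ n : ℕ, (f.map^[n + 1]) '' f.critSet)

/-- The natural extension of `K`: histories `(p_n)_{n ≤ 0}` in `K` with `f(p_{n-1}) = p_n`.
Here `p n` stands for `p_{-n}`. It carries the product topology. -/
def NatExt (f : HolMap d) (K : Set P2) : Type :=
  {p : ℕ → P2 // (∀ n, p n ∈ K) ∧ ∀ n, f.map (p (n + 1)) = p n}

noncomputable instance (f : HolMap d) (K : Set P2) : TopologicalSpace (f.NatExt K) :=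
  inferInstanceAs (TopologicalSpace
    {p : ℕ → P2 // (∀ n, p n ∈ K) ∧ ∀ n, f.map (p (n + 1)) = p n})

/-- `q` is the image of `p` under the lifted map of the natural extension: `q_n = f(p_n)`. -/
def IsImage (f : HolMap d) {K : Set P2} (p q : f.NatExt K) : Prop :=
  ∀ n, q.1 n = f.map (p.1 n)

end HolMap

/-- A Hermitian metric on `P^2`, in homogeneous coordinates: the square of the length of the
tangent vector `(z, ξ)` at `[z]` is `ξ^* H(z) ξ`, where the positive semidefinite matrix `H(z)`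
depends continuously on `z ≠ 0`, has kernel `C z`, and satisfies `|t|^2 H(t z) = H(z)`. -/
structure HermitianMetric where
  H : (Fin 3 → ℂ) → Matrix (Fin 3) (Fin 3) ℂ
  posSemidef : ∀ z, z ≠ 0 → (H z).PosSemidef
  ker : ∀ z, z ≠ 0 → ∀ ξ, (H z).mulVec ξ = 0 ↔ ξ ∈ Submodule.span ℂ {z}
  homogeneous : ∀ z, z ≠ 0 → ∀ t : ℂ, t ≠ 0 → ((‖t‖ ^ 2 : ℝ) : ℂ) • H (t • z) = H z
  continuousOn : ContinuousOn H {z | z ≠ 0}

/-- The length of the tangent vector `(z, ξ)`. -/
noncomputable def HermitianMetric.len (h : HermitianMetric) (z ξ : Fin 3 → ℂ) : ℝ :=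
  Real.sqrt (star ξ ⬝ᵥ (h.H z).mulVec ξ).re

/-- The cross product matrix: `crossMat z ξ = z × ξ`. Only used to check that Hermitian metrics in
the above sense exist. -/
def crossMat (z : Fin 3 → ℂ) : Matrix (Fin 3) (Fin 3) ℂ :=
  !![0, -z 2, z 1; z 2, 0, -z 0; -z 1, z 0, 0]

theorem sumSq_ne {z : Fin 3 → ℂ} (hz : z ≠ 0) : (((∑ i, ‖z i‖ ^ 2) ^ 2 : ℝ) : ℂ) ≠ 0 := by
  rw [ne_eq, Complex.ofReal_eq_zero]
  intro h0
  apply hz
  have h1 := pow_eq_zero_iff (two_ne_zero) |>.1 h0
  have h2 := (Finset.sum_eq_zero_iff_of_nonneg (fun i _ => by positivity)).1 h1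
  funext i
  have := h2 i (Finset.mem_univ i)
  simpa using this

/-- Sanity check: the Fubini-Study metric `|(z, ξ)| = |z × ξ| / |z|^2` is a Hermitian metric. -/
theorem nonempty_hermitianMetric : Nonempty HermitianMetric := by
  refine ⟨{
    H := fun z => (((∑ i, ‖z i‖ ^ 2) ^ 2 : ℝ) : ℂ)⁻¹ • ((crossMat z).conjTranspose * crossMat z)
    posSemidef := ?_
    ker := ?_
    homogeneous := ?_
    continuousOn := ?_ }⟩
  · intro z hz
    refine (Matrix.posSemidef_conjTranspose_mul_self _).smul ?_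
    rw [← Complex.ofReal_inv]
    exact Complex.zero_le_real.2 (by positivity)
  · intro z hz ξ
    rw [Matrix.smul_mulVec, smul_eq_zero_iff_right (inv_ne_zero (sumSq_ne hz)),
      Matrix.conjTranspose_mul_self_mulVec_eq_zero, Submodule.mem_span_singleton]
    constructor
    · intro h
      have h0 := congrFun h 0
      have h1 := congrFun h 1
      have h2 := congrFun h 2
      simp [crossMat, Matrix.mulVec, dotProduct, Fin.sum_univ_three] at h0 h1 h2
      have hex : ∃ i, z i ≠ 0 := by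
        by_contra hcon
        push Not at hcon
        exact hz (funext hcon)
      obtain ⟨i, hi⟩ := hex
      refine ⟨ξ i / z i, ?_⟩
      funext j
      simp only [Pi.smul_apply, smul_eq_mul]
      rw [div_mul_eq_mul_div, div_eq_iff hi]
      fin_cases i <;> fin_cases j <;> simp <;>
        first
          | ring1
          | linear_combination h0
          | linear_combination -h0
          | linear_combination h1
          | linear_combination -h1
          | linear_combination h2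
          | linear_combination -h2
    · rintro ⟨a, rfl⟩
      funext i
      fin_cases i <;>
        simp [crossMat, Matrix.mulVec, dotProduct, Fin.sum_univ_three] <;> ring
  · intro z hz t ht
    have h1 : crossMat (t • z) = t • crossMat z := by
      ext i j
      fin_cases i <;> fin_cases j <;> simp [crossMat]
    have h2 : (∑ i, ‖(t • z) i‖ ^ 2) = ‖t‖ ^ 2 * ∑ i, ‖z i‖ ^ 2 := by
      rw [Finset.mul_sum]
      refine Finset.sum_congr rfl fun i _ => ?_
      rw [Pi.smul_apply, norm_smul, mul_pow]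
    have h3 : star t * t = ((‖t‖ ^ 2 : ℝ) : ℂ) := by
      rw [Complex.star_def, Complex.conj_mul']
      push_cast
      rfl
    have ht2 : ((‖t‖ ^ 2 : ℝ) : ℂ) ≠ 0 := by
      rw [ne_eq, Complex.ofReal_eq_zero]
      have : 0 < ‖t‖ := norm_pos_iff.2 ht
      positivity
    have hprod : (crossMat (t • z)).conjTranspose * crossMat (t • z) =
        ((‖t‖ ^ 2 : ℝ) : ℂ) • ((crossMat z).conjTranspose * crossMat z) := by
      rw [h1, Matrix.conjTranspose_smul, Matrix.smul_mul, Matrix.mul_smul, smul_smul (star t), h3]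
    rw [hprod, h2, smul_smul, smul_smul, mul_pow, Complex.ofReal_mul, mul_inv]
    congr 1
    have h4 : (((‖t‖ ^ 2) ^ 2 : ℝ) : ℂ) = ((‖t‖ ^ 2 : ℝ) : ℂ) * ((‖t‖ ^ 2 : ℝ) : ℂ) := by
      push_cast; ring
    rw [h4, mul_inv]
    field_simp
  · have hM : Continuous crossMat := by
      refine continuous_matrix fun i j => ?_
      fin_cases i <;> fin_cases j <;> simp [crossMat] <;> fun_prop
    refine ContinuousOn.fun_smul ?_ (hM.matrix_conjTranspose.matrix_mul hM).continuousOn
    refine ContinuousOn.inv₀ ?_ (fun z hz => sumSq_ne hz)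
    apply Continuous.continuousOn
    exact Complex.continuous_ofReal.comp (by fun_prop)

/-- A family `E` of linear subspaces of `C^3`, indexed by a topological space, is a (continuous)
subbundle of the trivial bundle: it has continuous frames locally. -/
def IsSubbundle {X : Type} [TopologicalSpace X] (E : X → Submodule ℂ (Fin 3 → ℂ)) : Prop :=
  ∀ x₀ : X, ∃ W ∈ 𝓝 x₀, ∃ k : ℕ, ∃ v : Fin k → X → (Fin 3 → ℂ),
    (∀ i, ContinuousOn (v i) W) ∧
    ∀ x ∈ W, LinearIndependent ℂ (fun i => v i x) ∧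
      Submodule.span ℂ (Set.range fun i => v i x) = E x

/-- `f` is hyperbolic on `K`. A linear subspace of the tangent space of `P^2` at `[z]` is given by
a linear subspace of `C^3` containing the line `[z]`. So `Eu` and `Es` below are subbundles of the
tangent bundle over the natural extension of `K`, whose direct sum is the tangent bundle; both are
mapped into themselves by the differential, which expands `Eu` and contracts `Es` uniformly for
some Hermitian metric. -/
def HolMap.IsHyperbolicOn {d : ℕ} (f : HolMap d) (K : Set P2) : Prop :=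
  ∃ Eu Es : f.NatExt K → Submodule ℂ (Fin 3 → ℂ),
    IsSubbundle Eu ∧ IsSubbundle Es ∧
    (∀ p, Eu p ⊓ Es p = (p.1 0).submodule) ∧
    (∀ p, Eu p ⊔ Es p = ⊤) ∧
    (∀ p q, f.IsImage p q → ∀ z, z ∈ (p.1 0).submodule → z ≠ 0 →
      (∀ ξ ∈ Eu p, fderiv ℂ f.lift z ξ ∈ Eu q) ∧ (∀ ξ ∈ Es p, fderiv ℂ f.lift z ξ ∈ Es q)) ∧
    ∃ (h : HermitianMetric) (c C lam mu : ℝ), 0 < c ∧ 0 < C ∧ 1 < lam ∧ mu < 1 ∧
      ∀ n : ℕ, 1 ≤ n → ∀ p : f.NatExt K, ∀ z, z ∈ (p.1 0).submodule → z ≠ 0 →
        (∀ ξ ∈ Eu p, c * lam ^ n * h.len z ξ ≤ h.len (f.lift^[n] z) (fderiv ℂ (f.lift^[n]) z ξ)) ∧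
        (∀ ξ ∈ Es p, h.len (f.lift^[n] z) (fderiv ℂ (f.lift^[n]) z ξ) ≤ C * mu ^ n * h.len z ξ)

/-! ### The counterexample -/

open Pool.Agent.H703R2.SmallDiv Pool.Agent.H703R2.SiegelDom Pool.Agent.H703R2.FarPart

/-- The polynomials `z_1 z_2 + z_0 ^ 2`, `κ z_0 z_2 + z_1 ^ 2 / 2000`, `z_2 ^ 2`. -/
noncomputable def exF : Fin 3 → MvPolynomial (Fin 3) ℂ :=
  ![MvPolynomial.X 1 * MvPolynomial.X 2 + MvPolynomial.X 0 ^ 2,
    MvPolynomial.C kap * (MvPolynomial.X 0 * MvPolynomial.X 2) +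
      MvPolynomial.C (1 / 2000 : ℂ) * MvPolynomial.X 1 ^ 2,
    MvPolynomial.X 2 ^ 2]

theorem exF_eval (z : Fin 3 → ℂ) : (fun i => MvPolynomial.eval z (exF i)) =
    ![z 1 * z 2 + z 0 ^ 2, kap * (z 0 * z 2) + (1 / 2000 : ℂ) * z 1 ^ 2, z 2 ^ 2] := by
  funext i
  fin_cases i <;> simp [exF]

theorem exF_hom (i : Fin 3) : (exF i).IsHomogeneous 2 := by
  have hX : ∀ j : Fin 3, (MvPolynomial.X j : MvPolynomial (Fin 3) ℂ).IsHomogeneous 1 :=
    fun j => MvPolynomial.isHomogeneous_X ℂ j
  have hC : ∀ c : ℂ, (MvPolynomial.C c : MvPolynomial (Fin 3) ℂ).IsHomogeneous 0 :=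
    fun c => MvPolynomial.isHomogeneous_C _ c
  fin_cases i
  · exact ((hX 1).mul (hX 2)).add ((hX 0).pow 2)
  · exact ((hC _).mul ((hX 0).mul (hX 2))).add ((hC _).mul ((hX 1).pow 2))
  · exact (hX 2).pow 2

/-- The example. -/
noncomputable def ex : HolMap 2 where
  F := exF
  homogeneous := exF_hom
  onlyZero := by
    intro z hz
    have h := exF_eval z
    have h0 := congrFun h 0
    have h1 := congrFun h 1
    have h2 := congrFun h 2
    simp only [hz, Matrix.cons_val_zero, Matrix.cons_val_one, Matrix.cons_val] at h0 h1 h2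
    have e2 : z 2 = 0 := by
      have := h2.symm; exact pow_eq_zero_iff (two_ne_zero) |>.1 this
    rw [e2] at h0 h1
    have e0 : z 0 = 0 := by
      rw [mul_zero, zero_add] at h0
      exact pow_eq_zero_iff (two_ne_zero) |>.1 h0.symm
    have e1 : z 1 = 0 := by
      rw [mul_zero, mul_zero, zero_add] at h1
      have h3 := mul_eq_zero.1 h1.symm
      rcases h3 with h3 | h3
      · norm_num at h3
      · exact pow_eq_zero_iff (two_ne_zero) |>.1 h3
    funext i
    fin_cases i
    · exact e0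
    · exact e1
    · exact e2

theorem ex_lift (z : Fin 3 → ℂ) : ex.lift z =
    ![z 1 * z 2 + z 0 ^ 2, kap * (z 0 * z 2) + (1 / 2000 : ℂ) * z 1 ^ 2, z 2 ^ 2] :=
  exF_eval z

theorem ex_lift_smul (a : ℂ) (z : Fin 3 → ℂ) : ex.lift (a • z) = a ^ 2 • ex.lift z := by
  rw [ex_lift, ex_lift]
  funext i
  fin_cases i <;> simp <;> ring

theorem ex_map_mk (z : Fin 3 → ℂ) (hz : z ≠ 0) :
    ex.map (Projectivization.mk ℂ z hz) =
      Projectivization.mk ℂ (ex.lift z) (ex.lift_ne_zero hz) := by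
  obtain ⟨a, ha⟩ := Projectivization.exists_smul_eq_mk_rep ℂ z hz
  unfold HolMap.map
  rw [Projectivization.mk_eq_mk_iff']
  refine ⟨(a : ℂ) ^ 2, ?_⟩
  rw [← ex_lift_smul, ← ha]
  rfl

/-- The vector `(z, w, 1)`. -/
def vec (v : E) : Fin 3 → ℂ := ![v.1, v.2, 1]

theorem vec_ne (v : E) : vec v ≠ 0 := fun h => by
  have := congrFun h 2
  simp [vec] at this

/-- The affine chart `(z, w) ↦ [z : w : 1]`. -/
noncomputable def iota (v : E) : P2 := Projectivization.mk ℂ (vec v) (vec_ne v)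

theorem lift_vec (v : E) : ex.lift (vec v) = vec (f v) := by
  rw [ex_lift]
  funext i
  fin_cases i
  · simp [vec, f]
  · simp [vec, f]
  · simp [vec]

theorem map_iota (v : E) : ex.map (iota v) = iota (f v) := by
  unfold iota
  rw [ex_map_mk]
  congr 1
  exact lift_vec v

theorem iota_inj {u v : E} (h : iota u = iota v) : u = v := by
  unfold iota at h
  rw [Projectivization.mk_eq_mk_iff'] at h
  obtain ⟨a, ha⟩ := h
  have h2 := congrFun ha 2
  have h0 := congrFun ha 0
  have h1 := congrFun ha 1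
  simp [vec] at h0 h1 h2
  rw [h2] at h0 h1
  rw [one_mul] at h0 h1
  exact Prod.ext h0.symm h1.symm

theorem mk_eq_iota (z : Fin 3 → ℂ) (hz : z ≠ 0) (h2 : z 2 ≠ 0) :
    Projectivization.mk ℂ z hz = iota (z 0 / z 2, z 1 / z 2) := by
  unfold iota
  rw [Projectivization.mk_eq_mk_iff']
  refine ⟨z 2, ?_⟩
  funext i
  fin_cases i
  · simp [vec]; field_simp
  · simp [vec]; field_simp
  · simp [vec]

theorem exists_iota_of_map {p : P2} {u : E} (h : ex.map p = iota u) : ∃ v, p = iota v := by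
  induction p using Projectivization.ind with
  | h z hz =>
    rw [ex_map_mk] at h
    unfold iota at h
    rw [Projectivization.mk_eq_mk_iff'] at h
    obtain ⟨a, ha⟩ := h
    have h2 := congrFun ha 2
    rw [ex_lift] at h2
    have hz2 : z 2 ≠ 0 := by
      intro h0
      have hu : vec u ≠ 0 := vec_ne u
      have ha0 : a = 0 := by simpa [vec, h0] using h2
      rw [ha0, zero_smul] at ha
      exact ex.lift_ne_zero hz ha.symm
    exact ⟨_, mk_eq_iota z hz hz2⟩

theorem continuous_iota : Continuous iota := by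
  have h1 : Continuous (fun v : E => (⟨vec v, vec_ne v⟩ : {v : Fin 3 → ℂ // v ≠ 0})) := by
    apply Continuous.subtype_mk
    refine continuous_pi fun i => ?_
    fin_cases i
    · exact continuous_fst
    · exact continuous_snd
    · exact continuous_const
  exact continuous_coinduced_rng.comp h1

theorem isOpen_iota {U : Set E} (hU : IsOpen U) : IsOpen (iota '' U) := by
  rw [isOpen_coinduced]
  have hpre : (fun v : {v : Fin 3 → ℂ // v ≠ 0} => Projectivization.mk ℂ v.1 v.2) ⁻¹' (iota '' U)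
      = {v | v.1 2 ≠ 0} ∩
        (fun v : {v : Fin 3 → ℂ // v ≠ 0} => ((v.1 0 / v.1 2, v.1 1 / v.1 2) : E)) ⁻¹' U := by
    ext v
    constructor
    · rintro ⟨u, hu, huv⟩
      have huv' : iota u = Projectivization.mk ℂ v.1 v.2 := huv
      unfold iota at huv'
      rw [Projectivization.mk_eq_mk_iff'] at huv'
      obtain ⟨a, ha⟩ := huv'
      have h2 := congrFun ha 2
      simp [vec] at h2
      have hv2 : v.1 2 ≠ 0 := by
        intro h0; rw [h0, mul_zero] at h2; exact zero_ne_one h2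
      refine ⟨hv2, ?_⟩
      have := mk_eq_iota v.1 v.2 hv2
      have h3 : iota u = iota (v.1 0 / v.1 2, v.1 1 / v.1 2) := by rw [← this]; exact huv
      have h4 := iota_inj h3
      show (v.1 0 / v.1 2, v.1 1 / v.1 2) ∈ U
      rw [← h4]; exact hu
    · rintro ⟨hv2, hvU⟩
      exact ⟨_, hvU, (mk_eq_iota v.1 v.2 hv2).symm⟩
  rw [hpre]
  have hc : ∀ i, Continuous (fun v : {v : Fin 3 → ℂ // v ≠ 0} => v.1 i) := fun i =>
    (continuous_apply i).comp continuous_subtype_val
  have hopen : IsOpen {v : {v : Fin 3 → ℂ // v ≠ 0} | v.1 2 ≠ 0} :=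
    isOpen_ne_fun (hc 2) continuous_const
  refine ContinuousOn.isOpen_inter_preimage ?_ hopen hU
  refine ContinuousOn.prodMk ?_ ?_
  · exact (hc 0).continuousOn.div (hc 2).continuousOn (fun v hv => hv)
  · exact (hc 1).continuousOn.div (hc 2).continuousOn (fun v hv => hv)

/-- The derivative of the lift. -/
theorem ex_fderiv (x ξ : Fin 3 → ℂ) : fderiv ℂ ex.lift x ξ =
    ![ξ 1 * x 2 + x 1 * ξ 2 + 2 * x 0 * ξ 0,
      kap * (ξ 0 * x 2 + x 0 * ξ 2) + (1 / 1000 : ℂ) * x 1 * ξ 1, 2 * x 2 * ξ 2] := by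
  have hp : ∀ i : Fin 3, HasFDerivAt (fun z : Fin 3 → ℂ => z i)
      (ContinuousLinearMap.proj (R := ℂ) (φ := fun _ : Fin 3 => ℂ) i) x :=
    fun i => (ContinuousLinearMap.proj (R := ℂ) (φ := fun _ : Fin 3 => ℂ) i).hasFDerivAt
  obtain ⟨D0, h0, e0⟩ : ∃ D : (Fin 3 → ℂ) →L[ℂ] ℂ,
      HasFDerivAt (fun z : Fin 3 → ℂ => ex.lift z 0) D x ∧
      D ξ = ξ 1 * x 2 + x 1 * ξ 2 + 2 * x 0 * ξ 0 := by
    have h := ((hp 1).mul (hp 2)).add ((hp 0).pow 2)
    refine ⟨_, h.congr_of_eventuallyEq (Filter.Eventually.of_forall fun z => ?_), ?_⟩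
    · show ex.lift z 0 = _
      rw [ex_lift]; simp
    · simp; ring
  obtain ⟨D1, h1, e1⟩ : ∃ D : (Fin 3 → ℂ) →L[ℂ] ℂ,
      HasFDerivAt (fun z : Fin 3 → ℂ => ex.lift z 1) D x ∧
      D ξ = kap * (ξ 0 * x 2 + x 0 * ξ 2) + (1 / 1000 : ℂ) * x 1 * ξ 1 := by
    have h := (((hp 0).mul (hp 2)).const_mul kap).add (((hp 1).pow 2).const_mul (1 / 2000 : ℂ))
    refine ⟨_, h.congr_of_eventuallyEq (Filter.Eventually.of_forall fun z => ?_), ?_⟩
    · show ex.lift z 1 = _
      rw [ex_lift]; simp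
    · simp; ring
  obtain ⟨D2, h2, e2⟩ : ∃ D : (Fin 3 → ℂ) →L[ℂ] ℂ,
      HasFDerivAt (fun z : Fin 3 → ℂ => ex.lift z 2) D x ∧ D ξ = 2 * x 2 * ξ 2 := by
    have h := (hp 2).pow 2
    refine ⟨_, h.congr_of_eventuallyEq (Filter.Eventually.of_forall fun z => ?_), ?_⟩
    · show ex.lift z 2 = _
      rw [ex_lift]; simp
    · simp
  have hall : ∀ i : Fin 3, HasFDerivAt (fun z : Fin 3 → ℂ => ex.lift z i)
      ((![D0, D1, D2] : Fin 3 → ((Fin 3 → ℂ) →L[ℂ] ℂ)) i) x := by
    intro i
    fin_cases i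
    · exact h0
    · exact h1
    · exact h2
  have hF := (hasFDerivAt_pi.2 hall).fderiv
  have hlift : (fun z i => ex.lift z i) = ex.lift := rfl
  rw [hlift] at hF
  rw [hF]
  funext i
  fin_cases i
  · simpa using e0
  · simpa using e1
  · simpa using e2

theorem ex_differentiable : Differentiable ℂ ex.lift := by
  intro x
  rw [differentiableAt_pi]
  intro i
  have : (fun z : Fin 3 → ℂ => ex.lift z i) = fun z =>
      (![z 1 * z 2 + z 0 ^ 2, kap * (z 0 * z 2) + (1 / 2000 : ℂ) * z 1 ^ 2, z 2 ^ 2] :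
        Fin 3 → ℂ) i := by
    funext z; rw [ex_lift]
  rw [this]
  fin_cases i
  · simp; fun_prop
  · simp; fun_prop
  · simp; fun_prop

theorem submodule_mk (z : Fin 3 → ℂ) (hz : z ≠ 0) :
    (Projectivization.mk ℂ z hz).submodule = Submodule.span ℂ {z} :=
  Projectivization.submodule_mk z hz

theorem submodule_eq_rep (p : P2) : p.submodule = Submodule.span ℂ {p.rep} := by
  rw [Projectivization.submodule_eq]

/-- A critical point in the affine chart satisfies the determinant equation. -/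
theorem crit_iota {v : E} (h : iota v ∈ ex.critSet) : (1 / 500 : ℂ) * v.1 * v.2 = kap := by
  obtain ⟨ξ, hξ1, hξ2⟩ := h
  set x := (iota v).rep with hx
  rw [submodule_eq_rep] at hξ1
  have hmap : (ex.map (iota v)).submodule = Submodule.span ℂ {ex.lift x} := by
    unfold HolMap.map
    rw [submodule_mk]
  rw [hmap, Submodule.mem_span_singleton] at hξ2
  obtain ⟨s, hs⟩ := hξ2
  obtain ⟨a, ha⟩ := Projectivization.exists_smul_eq_mk_rep ℂ (vec v) (vec_ne v)
  have hx' : x = (a : ℂ) • vec v := ha.symm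
  have ha0 : (a : ℂ) ≠ 0 := a.ne_zero
  have x0 : x 0 = a * v.1 := by rw [hx']; simp [vec]
  have x1 : x 1 = a * v.2 := by rw [hx']; simp [vec]
  have x2 : x 2 = a := by rw [hx']; simp [vec]
  have hx2 : x 2 ≠ 0 := by rw [x2]; exact ha0
  rw [ex_fderiv, ex_lift] at hs
  have s0 := congrFun hs 0
  have s1 := congrFun hs 1
  have s2 := congrFun hs 2
  simp at s0 s1 s2
  -- subtract the Euler direction
  set η0 := ξ 0 - s / 2 * x 0 with hη0
  set η1 := ξ 1 - s / 2 * x 1 with hη1
  have t2 : ξ 2 = s / 2 * x 2 := by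
    have : x 2 * (2 * ξ 2 - s * x 2) = 0 := by linear_combination -s2
    rcases mul_eq_zero.1 this with h | h
    · exact absurd h hx2
    · linear_combination h / 2
  have t0 : η1 * x 2 + 2 * x 0 * η0 = 0 := by
    rw [hη0, hη1]
    linear_combination -s0 - x 1 * t2
  have t1 : kap * (η0 * x 2) + (1 / 1000 : ℂ) * x 1 * η1 = 0 := by
    rw [hη0, hη1]
    linear_combination -s1 - kap * x 0 * t2
  have key : η0 * (kap * x 2 ^ 2 - (1 / 500 : ℂ) * x 0 * x 1) = 0 := by
    linear_combination x 2 * t1 - (1 / 1000 : ℂ) * x 1 * t0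
  rcases mul_eq_zero.1 key with h | h
  · exfalso
    apply hξ1
    rw [h, mul_zero, add_zero] at t0
    have h1 : η1 = 0 := by
      rcases mul_eq_zero.1 t0 with h' | h'
      · exact h'
      · exact absurd h' hx2
    rw [Submodule.mem_span_singleton]
    refine ⟨s / 2, ?_⟩
    funext i
    fin_cases i
    · show s / 2 * x 0 = ξ 0
      rw [hη0] at h; linear_combination -h
    · show s / 2 * x 1 = ξ 1
      rw [hη1] at h1; linear_combination -h1
    · show s / 2 * x 2 = ξ 2
      exact t2.symm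
  · rw [x0, x1, x2] at h
    have : (a : ℂ) ^ 2 * (kap - (1 / 500 : ℂ) * v.1 * v.2) = 0 := by linear_combination h
    rcases mul_eq_zero.1 this with h' | h'
    · exact absurd (pow_eq_zero_iff (two_ne_zero) |>.1 h') ha0
    · linear_combination -h'

/-- The fixed point `(0, 0, 1)`. -/
def x0 : Fin 3 → ℂ := ![0, 0, 1]

theorem x0_ne : x0 ≠ 0 := fun h => by
  have := congrFun h 2
  simp [x0] at this

theorem lift_x0 : ex.lift x0 = x0 := by
  rw [ex_lift]
  funext i
  fin_cases i <;> simp [x0]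

theorem iter_lift_x0 (n : ℕ) : ex.lift^[n] x0 = x0 := Function.iterate_fixed lift_x0 n

/-- The derivative at the fixed point. -/
noncomputable def L : (Fin 3 → ℂ) →L[ℂ] (Fin 3 → ℂ) := fderiv ℂ ex.lift x0

theorem L_apply (ξ : Fin 3 → ℂ) : L ξ = ![ξ 1, kap * ξ 0, 2 * ξ 2] := by
  unfold L
  rw [ex_fderiv]
  funext i
  fin_cases i <;> simp [x0]

theorem fderiv_iter (n : ℕ) : fderiv ℂ (ex.lift^[n]) x0 = L ^ n := by
  have h : HasFDerivAt ex.lift L x0 := (ex_differentiable x0).hasFDerivAt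
  exact (h.iterate lift_x0 n).fderiv

theorem L_sq (m : ℕ) (ξ : Fin 3 → ℂ) :
    ∃ s : ℂ, (L ^ (2 * m)) ξ = kap ^ m • ξ + s • x0 := by
  induction m with
  | zero => exact ⟨0, by simp⟩
  | succ m ih =>
    obtain ⟨s, hs⟩ := ih
    have h1 : (L ^ (2 * (m + 1))) ξ = L (L ((L ^ (2 * m)) ξ)) := by
      rw [show 2 * (m + 1) = 1 + (1 + 2 * m) by ring, pow_add, pow_add, pow_one]
      rfl
    refine ⟨kap ^ m * 4 * ξ 2 - kap ^ (m + 1) * ξ 2 + 4 * s, ?_⟩
    rw [h1, hs, L_apply, L_apply]
    funext i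
    fin_cases i
    · simp [x0]; ring
    · simp [x0]; ring
    · simp [x0]; ring

theorem len_smul_add (h : HermitianMetric) (t s : ℂ) (ht : ‖t‖ = 1) (ξ : Fin 3 → ℂ) :
    h.len x0 (t • ξ + s • x0) = h.len x0 ξ := by
  have hk : (h.H x0).mulVec x0 = 0 :=
    (h.ker x0 x0_ne x0).2 (Submodule.mem_span_singleton_self _)
  have hherm : (h.H x0).conjTranspose = h.H x0 := (h.posSemidef x0 x0_ne).isHermitian
  have hk2 : Matrix.vecMul (star x0) (h.H x0) = 0 := by
    have h1 := Matrix.star_mulVec (h.H x0) x0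
    rw [hherm, hk, star_zero] at h1
    exact h1.symm
  unfold HermitianMetric.len
  congr 2
  rw [Matrix.mulVec_add, Matrix.mulVec_smul, Matrix.mulVec_smul, hk, smul_zero, add_zero,
    star_add, star_smul, star_smul, add_dotProduct, smul_dotProduct, smul_dotProduct,
    dotProduct_smul, dotProduct_smul, Matrix.dotProduct_mulVec (star x0), hk2, zero_dotProduct,
    smul_zero, smul_zero, add_zero, smul_smul]
  have h2 : star t * t = 1 := by
    have h3 : star t * t = ((‖t‖ ^ 2 : ℝ) : ℂ) := by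
      rw [Complex.star_def, Complex.conj_mul']
      push_cast
      rfl
    rw [h3, ht]
    simp
  rw [h2, one_smul]

theorem len_pos (h : HermitianMetric) (ξ : Fin 3 → ℂ) (hξ : ξ ∉ Submodule.span ℂ {x0}) :
    0 < h.len x0 ξ := by
  unfold HermitianMetric.len
  apply Real.sqrt_pos.2
  have hnn : 0 ≤ star ξ ⬝ᵥ (h.H x0).mulVec ξ :=
    (h.posSemidef x0 x0_ne).dotProduct_mulVec_nonneg ξ
  have hne : star ξ ⬝ᵥ (h.H x0).mulVec ξ ≠ 0 := by
    intro h0
    have h1 := ((h.posSemidef x0 x0_ne).dotProduct_mulVec_zero_iff ξ).1 h0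
    exact hξ ((h.ker x0 x0_ne ξ).1 h1)
  have hre := Complex.nonneg_iff.1 hnn
  rcases lt_or_eq_of_le hre.1 with h1 | h1
  · exact h1
  · exfalso
    apply hne
    exact Complex.ext h1.symm hre.2.symm

/-- The constant history at the fixed point. -/
noncomputable def constHist {K : Set P2} (hK : iota 0 ∈ K) : ex.NatExt K :=
  ⟨fun _ => iota 0, fun _ => hK, fun _ => by rw [map_iota, f_zero]⟩

theorem not_hyperbolic {K : Set P2} (hK : iota 0 ∈ K) : ¬ ex.IsHyperbolicOn K := by
  rintro ⟨Eu, Es, -, -, -, hsup, -, h, c, C, lam, mu, hc, hC, hlam, hmu1, hexp⟩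
  set p := constHist hK with hp
  have hvec : vec 0 = x0 := by
    funext i; fin_cases i <;> simp [vec, x0]
  have hsub : (p.1 0).submodule = Submodule.span ℂ {x0} := by
    show (iota 0).submodule = _
    unfold iota
    rw [submodule_mk, hvec]
  have hx0mem : x0 ∈ (p.1 0).submodule := by
    rw [hsub]; exact Submodule.mem_span_singleton_self _
  have hEu : Eu p ≤ Submodule.span ℂ {x0} := by
    intro ξ hξ
    by_contra hcon
    have hpos := len_pos h ξ hcon
    have hbound : ∀ m : ℕ, c * (lam ^ 2) ^ (m + 1) ≤ 1 := by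
      intro m
      have h1 := (hexp (2 * (m + 1)) (by omega) p x0 hx0mem x0_ne).1 ξ hξ
      rw [iter_lift_x0, fderiv_iter] at h1
      obtain ⟨s, hs⟩ := L_sq (m + 1) ξ
      rw [hs, len_smul_add h _ _ (by rw [norm_pow, norm_kap, one_pow])] at h1
      rw [pow_mul] at h1
      have h2 : c * (lam ^ 2) ^ (m + 1) * h.len x0 ξ ≤ 1 * h.len x0 ξ := by linarith
      exact le_of_mul_le_mul_right h2 hpos
    have hlam2 : 1 < lam ^ 2 := by nlinarith
    obtain ⟨m, hm⟩ := pow_unbounded_of_one_lt (1 / c) hlam2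
    have h3 : (lam ^ 2) ^ m ≤ (lam ^ 2) ^ (m + 1) := pow_le_pow_right₀ hlam2.le (by omega)
    have h4 := hbound m
    rw [div_lt_iff₀ hc] at hm
    nlinarith
  have hEs : Es p ≤ Submodule.span ℂ {x0} := by
    intro ξ hξ
    by_contra hcon
    have hpos := len_pos h ξ hcon
    have hbound : ∀ m : ℕ, 1 ≤ C * (mu ^ 2) ^ (m + 1) := by
      intro m
      have h1 := (hexp (2 * (m + 1)) (by omega) p x0 hx0mem x0_ne).2 ξ hξ
      rw [iter_lift_x0, fderiv_iter] at h1
      obtain ⟨s, hs⟩ := L_sq (m + 1) ξ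
      rw [hs, len_smul_add h _ _ (by rw [norm_pow, norm_kap, one_pow])] at h1
      rw [pow_mul] at h1
      have h2 : 1 * h.len x0 ξ ≤ C * (mu ^ 2) ^ (m + 1) * h.len x0 ξ := by linarith
      exact le_of_mul_le_mul_right h2 hpos
    have hmu0 : 0 ≤ mu := by
      have h1 := (hexp 1 le_rfl p x0 hx0mem x0_ne).2 ξ hξ
      have h2 : 0 ≤ C * mu ^ 1 * h.len x0 ξ := le_trans (Real.sqrt_nonneg _) h1
      rw [pow_one] at h2
      by_contra hneg
      push Not at hneg
      have h3 : C * mu < 0 := by nlinarith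
      nlinarith
    have hmu2 : mu ^ 2 < 1 := by nlinarith
    obtain ⟨m, hm⟩ := exists_pow_lt_of_lt_one (show (0:ℝ) < 1 / C by positivity) hmu2
    have h3 : (mu ^ 2) ^ (m + 1) ≤ (mu ^ 2) ^ m :=
      pow_le_pow_of_le_one (by positivity) hmu2.le (by omega)
    have h4 := hbound m
    rw [lt_div_iff₀ hC] at hm
    nlinarith
  have htop : (⊤ : Submodule ℂ (Fin 3 → ℂ)) ≤ Submodule.span ℂ {x0} := by
    rw [← hsup p]; exact sup_le hEu hEs
  have h5 : (![1, 0, 0] : Fin 3 → ℂ) ∈ Submodule.span ℂ {x0} := htop Submodule.mem_top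
  rw [Submodule.mem_span_singleton] at h5
  obtain ⟨a, ha⟩ := h5
  have := congrFun ha 0
  simp [x0] at this

/-- **Answer to Q1: no.** There is a holomorphic map `f` of `P^2` of degree at least two and a
compact totally invariant set `K` disjoint from the postcritical set of `f` such that `f` is not
hyperbolic on `K`. -/
theorem result : ∃ (d : ℕ) (f : HolMap d) (K : Set P2), 2 ≤ d ∧ IsCompact K ∧
    f.map ⁻¹' K = K ∧ f.postcrit ∩ K = ∅ ∧ ¬ f.IsHyperbolicOn K := by
  obtain ⟨V, U, K, hU, hUV, hKU, hK, h0K, hKf, hV, hVc⟩ := affine_data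
  refine ⟨2, ex, iota '' K, le_rfl, hK.image continuous_iota, ?_, ?_,
    not_hyperbolic ⟨0, h0K, rfl⟩⟩
  · ext p
    constructor
    · intro hp
      obtain ⟨u, hu, hup⟩ := hp
      obtain ⟨v, rfl⟩ := exists_iota_of_map hup.symm
      rw [map_iota] at hup
      have : f v = u := iota_inj hup.symm
      refine ⟨v, ?_, rfl⟩
      rw [← hKf]
      show f v ∈ K
      rw [this]; exact hu
    · rintro ⟨v, hv, rfl⟩
      rw [← hKf] at hv
      exact ⟨f v, hv, (map_iota v).symm⟩
  · rw [Set.eq_empty_iff_forall_notMem]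
    rintro _ ⟨hq, v, hv, rfl⟩
    have hopen := isOpen_iota hU
    obtain ⟨q, hq1, hq2⟩ := mem_closure_iff.1 hq _ hopen ⟨v, hKU hv, rfl⟩
    obtain ⟨n, hn⟩ := Set.mem_iUnion.1 hq2
    obtain ⟨c, hc, hcq⟩ := hn
    have hback : ∀ (m : ℕ) (c : P2), ex.map^[m] c ∈ iota '' V → c ∈ iota '' V := by
      intro m
      induction m with
      | zero => intro c hc; exact hc
      | succ m ih =>
        intro c hc
        rw [Function.iterate_succ_apply] at hc
        obtain ⟨u, hu, huc⟩ := ih _ hc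
        obtain ⟨w, rfl⟩ := exists_iota_of_map huc.symm
        rw [map_iota] at huc
        have : f w = u := iota_inj huc.symm
        exact ⟨w, hV w (this ▸ hu), rfl⟩
    obtain ⟨u, hu, huc⟩ := hback (n + 1) c (by
      rw [hcq]
      obtain ⟨u, hu, rfl⟩ := hq1
      exact ⟨u, hUV hu, rfl⟩)
    rw [← huc] at hc
    exact hVc u hu (crit_iota hc)

end Pool.Agent.Results.MP_eb1abe_an.NotHyperbolic
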